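import Pool.Agent.helper97.KR.Spec

/-!
# Project KR, row TR (helper51): from a graph on `S` with the edges `F` to the types
-/

set_option autoImplicit false

namespace Pool.Agent.helper97.KR

open Finset Classical

noncomputable section

private def tr_ends {V E : Type} (ends : E → Sym2 V) (S : Finset V) (F : Finset E) (h : ∀ e ∈ F, ∀ v ∈ ends e, v ∈ S)
    (e : {e // e ∈ F}) : Sym2 {v // v ∈ S} := (ends e.1).attachWith (h e.1 e.2)

private theorem tr_map {V E : Type} (ends : E → Sym2 V) (S : Finset V) (F : Finset E) (h : ∀ e ∈ F, ∀ v ∈ ends e, v ∈ S)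
    (e : {e // e ∈ F}) : (tr_ends ends S F h e).map Subtype.val = ends e.1 :=
  Sym2.attachWith_map_subtypeVal _

private theorem tr_mem {V E : Type} (ends : E → Sym2 V) (S : Finset V) (F : Finset E) (h : ∀ e ∈ F, ∀ v ∈ ends e, v ∈ S)
    (e : {e // e ∈ F}) (v : {v // v ∈ S}) : v ∈ tr_ends ends S F h e ↔ v.1 ∈ ends e.1 := by
  rw [← tr_map ends S F h e, Sym2.mem_map]
  constructor
  · intro hv
    exact ⟨v, hv, rfl⟩
  · rintro ⟨a, ha, hav⟩
    rwa [← Subtype.ext hav]

private theorem tr_eq {V E : Type} (ends : E → Sym2 V) (S : Finset V) (F : Finset E) (h : ∀ e ∈ F, ∀ v ∈ ends e, v ∈ S)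
    (e : {e // e ∈ F}) (a b : {v // v ∈ S}) : tr_ends ends S F h e = s(a, b) ↔ ends e.1 = s(a.1, b.1) := by
  rw [← tr_map ends S F h e]
  constructor
  · intro hv
    rw [hv]
    rfl
  · intro hv
    apply Sym2.map.injective Subtype.val_injective
    rw [hv]
    rfl

private theorem tr_con {V E : Type} (ends : E → Sym2 V) (S : Finset V) (F : Finset E) (h : ∀ e ∈ F, ∀ v ∈ ends e, v ∈ S)
    (W : Set {e // e ∈ F}) : Con (tr_ends ends S F h) univ W ↔ Con ends S (Subtype.val '' W) := by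
  constructor
  · intro hc u hu v hv
    have h1 := hc ⟨u, hu⟩ (mem_univ _) ⟨v, hv⟩ (mem_univ _)
    have h2 := Relation.ReflTransGen.lift (r := Jn (tr_ends ends S F h) W) (p := Jn ends (Subtype.val '' W))
      (fun x : {v // v ∈ S} => x.1) (fun a b hab => by
        obtain ⟨e, he, hee⟩ := hab
        exact ⟨e.1, ⟨e, he, rfl⟩, (tr_eq ends S F h e a b).1 hee⟩) _ _ h1
    exact h2
  · intro hc u _ v _
    have h1 := hc u.1 u.2 v.1 v.2
    have h2 : ∀ w : V, Relation.ReflTransGen (Jn ends (Subtype.val '' W)) u.1 w →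
        ∃ hw : w ∈ S, Relation.ReflTransGen (Jn (tr_ends ends S F h) W) u ⟨w, hw⟩ := by
      intro w hw
      induction hw with
      | refl => exact ⟨u.2, Relation.ReflTransGen.refl⟩
      | tail hab hbc ih =>
        obtain ⟨hb, ih⟩ := ih
        obtain ⟨e', ⟨e, he, hee⟩, hs⟩ := hbc
        subst hee
        rename_i b c
        have hcS : c ∈ S := h e.1 e.2 c (by rw [hs]; exact Sym2.mem_mk_right _ _)
        exact ⟨hcS, ih.tail ⟨e, he, (tr_eq ends S F h e ⟨b, hb⟩ ⟨c, hcS⟩).2 hs⟩⟩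
    obtain ⟨hw, h3⟩ := h2 v.1 h1
    exact h3

private theorem tr_img {E : Type} (F : Finset E) (T : Finset E) (hT : T ⊆ F) :
    (((univ : Finset {e // e ∈ F}).filter fun e => e.1 ∈ T).map (Function.Embedding.subtype _)) = T := by
  ext e
  simp only [mem_map, mem_filter, mem_univ, true_and, Function.Embedding.coe_subtype, Subtype.exists,
    exists_and_right, exists_eq_right, exists_and_left, exists_prop]
  constructor
  · rintro ⟨h1, h2⟩
    exact h2
  · intro h1
    exact ⟨hT h1, h1⟩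

private theorem tr_set {E : Type} (F : Finset E) (T : Finset E) (hT : T ⊆ F) :
    (Subtype.val '' (((univ : Finset {e // e ∈ F}).filter fun e => e.1 ∈ T : Finset {e // e ∈ F}) : Set {e // e ∈ F})) =
      (T : Set E) := by
  have h1 := congrArg (fun s : Finset E => (s : Set E)) (tr_img F T hT)
  rw [← h1]
  show _ = ((((univ : Finset {e // e ∈ F}).filter fun e => e.1 ∈ T).map (Function.Embedding.subtype _) : Finset E) : Set E)
  rw [coe_map]
  rfl

private theorem tr_card {E : Type} (F : Finset E) (T : Finset E) (hT : T ⊆ F) :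
    ((univ : Finset {e // e ∈ F}).filter fun e => e.1 ∈ T).card = T.card := by
  have h1 := congrArg Finset.card (tr_img F T hT)
  rw [card_map] at h1
  exact h1

private theorem tr_univ {V : Type} (S : Finset V) : (univ : Finset {v // v ∈ S}).card = S.card := by
  rw [card_univ, Fintype.card_coe]

private theorem tr_g3 {V E : Type} (ends : E → Sym2 V) (S : Finset V) (F : Finset E) (h : G3 ends S F) :
    G3 (tr_ends ends S F h.sub) univ univ := by
  refine ⟨?_, fun e _ v _ => mem_univ v, fun e _ hd => ?_, ?_⟩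
  · obtain ⟨v, hv⟩ := h.ne
    exact ⟨⟨v, hv⟩, mem_univ _⟩
  · apply h.loop e.1 e.2
    rw [← tr_map ends S F h.sub e]
    obtain ⟨z, hz⟩ : ∃ z, z = tr_ends ends S F h.sub e := ⟨_, rfl⟩
    rw [← hz] at hd ⊢
    induction z using Sym2.ind with
    | _ a b =>
      rw [Sym2.mk_isDiag_iff] at hd
      rw [Sym2.map_mk, Sym2.mk_isDiag_iff, hd]
  · obtain ⟨T, h1, h2, h3, h4⟩ := h.tr
    have hsub : ∀ i, T i ⊆ F := fun i e he => (h4 e).2 ⟨i, he⟩
    refine ⟨fun i => (univ : Finset {e // e ∈ F}).filter fun e => e.1 ∈ T i, fun i => ?_, fun i => ?_, fun i j hij => ?_,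
      fun e => ?_⟩
    · rw [tr_univ, tr_card F (T i) (hsub i)]
      exact h1 i
    · rw [tr_con, tr_set F (T i) (hsub i)]
      exact h2 i
    · rw [Finset.disjoint_left]
      intro e he he'
      rw [mem_filter] at he he'
      exact Finset.disjoint_left.1 (h3 i j hij) he.2 he'.2
    · constructor
      · intro _
        obtain ⟨i, hi⟩ := (h4 e.1).1 e.2
        exact ⟨i, mem_filter.2 ⟨mem_univ _, hi⟩⟩
      · intro _
        exact mem_univ _

private theorem tr_memmap {V : Type} (S : Finset V) (U : Finset {v // v ∈ S}) (v : {v // v ∈ S}) :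
    v.1 ∈ U.map (Function.Embedding.subtype _) ↔ v ∈ U := by
  rw [mem_map]
  constructor
  · rintro ⟨a, ha, hav⟩
    have : a = v := Subtype.ext hav
    rwa [← this]
  · intro hv
    exact ⟨v, hv, rfl⟩

private theorem tr_mc {V E : Type} (ends : E → Sym2 V) (F : Finset E) (U : Finset V) (e : E) :
    e ∈ cut ends F U ↔ e ∈ F ∧ (∃ v ∈ ends e, v ∈ U) ∧ ∃ v ∈ ends e, v ∉ U := by
  unfold cut
  exact mem_filter

private theorem tr_mi {V E : Type} (ends : E → Sym2 V) (F : Finset E) (U : Finset V) (e : E) :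
    e ∈ ins ends F U ↔ e ∈ F ∧ ∀ v ∈ ends e, v ∈ U := by
  unfold ins
  exact mem_filter

private theorem tr_cut {V E : Type} (ends : E → Sym2 V) (S : Finset V) (F : Finset E) (h : ∀ e ∈ F, ∀ v ∈ ends e, v ∈ S)
    (U : Finset {v // v ∈ S}) : (cut (tr_ends ends S F h) univ U).card = (cut ends F (U.map (Function.Embedding.subtype _))).card := by
  have h1 : (cut (tr_ends ends S F h) univ U) = (univ : Finset {e // e ∈ F}).filter fun e =>
      e.1 ∈ cut ends F (U.map (Function.Embedding.subtype _)) := by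
    ext e
    rw [tr_mc, mem_filter, tr_mc]
    constructor
    · rintro ⟨_, ⟨v, hv1, hv2⟩, w, hw1, hw2⟩
      refine ⟨mem_univ _, e.2, ⟨v.1, (tr_mem ends S F h e v).1 hv1, (tr_memmap S U v).2 hv2⟩,
        ⟨w.1, (tr_mem ends S F h e w).1 hw1, fun hc => hw2 ((tr_memmap S U w).1 hc)⟩⟩
    · rintro ⟨_, _, ⟨v, hv1, hv2⟩, w, hw1, hw2⟩
      have hvS := h e.1 e.2 v hv1
      have hwS := h e.1 e.2 w hw1
      refine ⟨mem_univ _, ⟨⟨v, hvS⟩, (tr_mem ends S F h e ⟨v, hvS⟩).2 hv1, (tr_memmap S U ⟨v, hvS⟩).1 hv2⟩,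
        ⟨⟨w, hwS⟩, (tr_mem ends S F h e ⟨w, hwS⟩).2 hw1, fun hc => hw2 ((tr_memmap S U ⟨w, hwS⟩).2 hc)⟩⟩
  rw [h1]
  exact tr_card F _ (filter_subset _ _)

private theorem tr_ins {V E : Type} (ends : E → Sym2 V) (S : Finset V) (F : Finset E) (h : ∀ e ∈ F, ∀ v ∈ ends e, v ∈ S)
    (U : Finset {v // v ∈ S}) : (ins (tr_ends ends S F h) univ U).card = (ins ends F (U.map (Function.Embedding.subtype _))).card := by
  have h1 : (ins (tr_ends ends S F h) univ U) = (univ : Finset {e // e ∈ F}).filter fun e =>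
      e.1 ∈ ins ends F (U.map (Function.Embedding.subtype _)) := by
    ext e
    rw [tr_mi, mem_filter, tr_mi]
    constructor
    · rintro ⟨_, hv⟩
      refine ⟨mem_univ _, e.2, fun v hv1 => ?_⟩
      have hvS := h e.1 e.2 v hv1
      exact (tr_memmap S U ⟨v, hvS⟩).2 (hv ⟨v, hvS⟩ ((tr_mem ends S F h e ⟨v, hvS⟩).2 hv1))
    · rintro ⟨_, _, hv⟩
      refine ⟨mem_univ _, fun v hv1 => ?_⟩
      exact (tr_memmap S U v).1 (hv v.1 ((tr_mem ends S F h e v).1 hv1))
  rw [h1]
  exact tr_card F _ (filter_subset _ _)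

private theorem tr_sub {V : Type} (S : Finset V) (U : Finset {v // v ∈ S}) : U.map (Function.Embedding.subtype _) ⊆ S := by
  intro v hv
  rw [mem_map] at hv
  obtain ⟨a, _, hav⟩ := hv
  rw [← hav]
  exact a.2

private theorem tr_hd {V E : Type} (ends : E → Sym2 V) (S : Finset V) (F : Finset E) (h : Hd ends S F) :
    Hd (tr_ends ends S F h.g.sub) univ univ := by
  refine ⟨tr_g3 ends S F h.g, ?_, fun U _ hne hnu => ?_, fun U _ h2 h3 => ?_, fun x _ => ?_⟩
  · rw [tr_univ]
    exact h.six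
  · rw [tr_cut]
    refine h.five _ (tr_sub S U) (hne.map) fun hc => hnu ?_
    refine eq_univ_iff_forall.2 fun v => ?_
    rw [← tr_memmap S U v, hc]
    exact v.2
  · rw [tr_ins, ← card_map (Function.Embedding.subtype fun v => v ∈ S) (s := U)]
    refine h.slack _ (tr_sub S U) (by rw [card_map]; exact h2) (by rw [card_map, ← tr_univ S]; exact h3)
  · obtain ⟨v, hv, hvx, hve⟩ := h.dom x.1 x.2
    refine ⟨⟨v, hv⟩, mem_univ _, fun hc => hvx (congrArg Subtype.val hc), fun e _ hc => ?_⟩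
    exact hve e.1 e.2 ((tr_eq ends S F h.g.sub e x ⟨v, hv⟩).1 hc)

theorem TR : TR_stmt := by
  intro hT V E ends S F h hS
  obtain ⟨c, h1, h2, h3⟩ := hT {v // v ∈ S} {e // e ∈ F} (tr_ends ends S F h.g.sub) (tr_hd ends S F h)
    (by rw [tr_univ]; exact hS)
  rw [tr_univ] at h1 h2 h3
  refine ⟨fun j => (c j).1, fun j => congrArg Subtype.val (h1 j), ⟨fun j _ => (c j).2, fun i hi j hj hij => ?_, fun e he => ?_⟩,
    fun j => ?_⟩
  · exact h2.injOn hi hj (Subtype.ext hij)
  · obtain ⟨j, hj, hje⟩ := h2.surjOn (mem_coe.2 (mem_univ (⟨e, he⟩ : {e // e ∈ F})))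
    exact ⟨j, hj, congrArg Subtype.val hje⟩
  · have h4 := (tr_con ends S F h.g.sub _).1 (h3 j)
    rw [Set.image_image] at h4
    exact h4

end

end Pool.Agent.helper97.KR
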